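import Pool.Agent.Helper80_RS.Stmts

/-!
# Block lemmas (GLU, MGA, MGB)
-/

open SimpleGraph

namespace Pool.Agent.RS80

variable {V K L A : Type}

theorem prop_of_preconnected {G : SimpleGraph V} (hG : G.Preconnected) (p : V → Prop)
    (h : ∀ u v, G.Adj u v → p u → p v) {u : V} (hu : p u) (v : V) : p v := by
  obtain ⟨w⟩ := hG u v
  induction w with
  | nil => exact hu
  | cons hadj _ ih => exact ih (h _ _ hadj hu)

/-- Propagation in a 2-connected graph, avoiding one vertex. -/
theorem TwoConn.prop {B : SimpleGraph V} (hB : TwoConn B) (p : V → Prop) (w : V)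
    (h : ∀ u v, B.Adj u v → p u → v ≠ w → p v) {u : V} (hu : p u) (huw : u ≠ w) (v : V)
    (hv : v ≠ w) : p v := by
  have := prop_of_preconnected (hB.2.2 w).preconnected (fun x => p x.1)
    (fun a b hab ha => h a.1 b.1 hab ha b.2) (u := ⟨u, huw⟩) hu ⟨v, hv⟩
  exact this

theorem TwoConn.exists_adj {B : SimpleGraph V} (hB : TwoConn B) (v : V) : ∃ u, B.Adj v u := by
  have h3 : 1 < Nat.card V := by have := hB.1; omega
  have : Finite V := Nat.finite_of_card_ne_zero (by omega)
  have hnt : Nontrivial V := Finite.one_lt_card_iff_nontrivial.1 h3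
  exact hB.2.1.preconnected.exists_adj_of_nontrivial v

theorem TwoConn.exists_adj_ne {B : SimpleGraph V} (hB : TwoConn B) (v w : V) :
    ∃ u, u ≠ w ∧ B.Adj v u := by
  have h3 := hB.1
  have hfin : Finite V := Nat.finite_of_card_ne_zero (by omega)
  by_cases hvw : v = w
  · subst hvw
    obtain ⟨u, hu⟩ := hB.exists_adj v
    exact ⟨u, hu.ne', hu⟩
  · -- a third vertex
    obtain ⟨x, hx⟩ : ∃ x : V, x ≠ v ∧ x ≠ w := by
      by_contra hcon
      push Not at hcon
      have hsub : (Set.univ : Set V) ⊆ {v, w} := by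
        intro y _
        by_cases hy : y = v
        · exact Or.inl hy
        · exact Or.inr (hcon y hy)
      have h1 : (Set.univ : Set V).ncard ≤ ({v, w} : Set V).ncard :=
        Set.ncard_le_ncard hsub (Set.toFinite _)
      have h2 : ({v, w} : Set V).ncard ≤ 2 := Set.ncard_insert_le _ _ |>.trans (by simp)
      rw [Set.ncard_univ] at h1
      omega
    have hnt : Nontrivial ↥({w}ᶜ : Set V) :=
      ⟨⟨⟨v, hvw⟩, ⟨x, hx.2⟩, fun h => hx.1 (congrArg Subtype.val h).symm⟩⟩
    obtain ⟨u, hu⟩ := (hB.2.2 w).preconnected.exists_adj_of_nontrivial ⟨v, hvw⟩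
    exact ⟨u.1, u.2, hu⟩

/-- Fewer pendant edges. -/
def pendMono (B : SimpleGraph V) {Z' Z : Set V} (h : Z' ⊆ Z) : Copy (pend B Z') (pend B Z) where
  toHom :=
    { toFun := Sum.map id (fun z => ⟨z.1, h z.2⟩)
      map_rel' := by
        rintro (u | z) (v | w) hh
        · exact hh
        · exact hh
        · exact hh
        · exact hh }
  injective' := by
    rintro (u | ⟨z, hz⟩) (v | ⟨w, hw⟩) hh
    · simpa using hh
    · simp at hh
    · simp at hh
    · simpa using hh

/-- The copy of `B` inside `pend B Z`. -/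
def pendInl (B : SimpleGraph V) (Z : Set V) : Copy B (pend B Z) where
  toHom :=
    { toFun := Sum.inl
      map_rel' := fun hh => hh }
  injective' := Sum.inl_injective

/-! ### One root -/

theorem glue_left (G : SimpleGraph K) (k : K) (Q : SimpleGraph L) (r : L) {H : SimpleGraph A}
    (f : Copy H (glue G k Q r)) (h : ∀ a, ∃ b, f a = Sum.inl b) :
    ∃ g : Copy H G, ∀ a, f a = Sum.inl (g a) := by
  choose g hg using h
  refine ⟨⟨⟨g, fun {a b} hab => ?_⟩, fun a b hab => ?_⟩, hg⟩
  · have := f.toHom.map_rel hab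
    change (glue G k Q r).Adj (f a) (f b) at this
    rw [hg, hg] at this
    exact this
  · apply f.injective
    change f a = f b
    change g a = g b at hab
    rw [hg, hg, hab]

theorem glue_right (G : SimpleGraph K) (k : K) (Q : SimpleGraph L) (r : L) {H : SimpleGraph A}
    (f : Copy H (glue G k Q r)) (h : ∀ a, f a = Sum.inl k ∨ ∃ x, x ≠ r ∧ f a = Sum.inr x) :
    ∃ g : Copy H Q, ∀ a, (f a = Sum.inl k ∧ g a = r) ∨ (f a = Sum.inr (g a) ∧ g a ≠ r) := by
  have h' : ∀ a, ∃ y, (f a = Sum.inl k ∧ y = r) ∨ (f a = Sum.inr y ∧ y ≠ r) := by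
    intro a
    rcases h a with h1 | ⟨x, hx, h1⟩
    · exact ⟨r, Or.inl ⟨h1, rfl⟩⟩
    · exact ⟨x, Or.inr ⟨h1, hx⟩⟩
  choose g hg using h'
  refine ⟨⟨⟨g, fun {a b} hab => ?_⟩, fun a b hab => ?_⟩, hg⟩
  · have := f.toHom.map_rel hab
    change (glue G k Q r).Adj (f a) (f b) at this
    rcases hg a with ⟨ha, ha'⟩ | ⟨ha, ha'⟩ <;> rcases hg b with ⟨hb, hb'⟩ | ⟨hb, hb'⟩
    · exfalso
      have : a = b := f.injective (by change f a = f b; rw [ha, hb])
      exact hab.ne this
    · rw [ha, hb] at this
      rw [ha']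
      exact this.2
    · rw [ha, hb] at this
      rw [hb']
      exact this.2.symm
    · rw [ha, hb] at this
      exact this.2.2
  · change g a = g b at hab
    apply f.injective
    change f a = f b
    rcases hg a with ⟨ha, ha'⟩ | ⟨ha, ha'⟩ <;> rcases hg b with ⟨hb, hb'⟩ | ⟨hb, hb'⟩
    · rw [ha, hb]
    · exact absurd (hab ▸ ha') hb'
    · exact absurd (hab.symm ▸ hb') ha'
    · rw [ha, hb, hab]

theorem glue_block {B : SimpleGraph V} (hB : TwoConn B) (G : SimpleGraph K) (k : K)
    (Q : SimpleGraph L) (r : L) (f : Copy B (glue G k Q r)) :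
    (∀ v, ∃ b, f v = Sum.inl b) ∨ (∀ v, f v = Sum.inl k ∨ ∃ x, x ≠ r ∧ f v = Sum.inr x) := by
  by_cases hex : ∃ v x, f v = Sum.inr x
  · right
    obtain ⟨v, x, hv⟩ := hex
    have hadj : ∀ a b, B.Adj a b → (glue G k Q r).Adj (f a) (f b) := fun a b h =>
      f.toHom.map_rel h
    have hxr : x ≠ r := by
      obtain ⟨u, hu⟩ := hB.exists_adj v
      have := hadj _ _ hu
      rw [hv] at this
      rcases hfu : f u with a | y
      · rw [hfu] at this
        exact this.2.ne'
      · rw [hfu] at this
        exact this.1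
    have hstep : ∀ a b, B.Adj a b → (∃ y, y ≠ r ∧ f a = Sum.inr y) → f b ≠ Sum.inl k →
        (∃ y, y ≠ r ∧ f b = Sum.inr y) := by
      rintro a b hab ⟨y, hy, ha⟩ hb
      have := hadj _ _ hab
      rw [ha] at this
      rcases hfb : f b with c | y'
      · rw [hfb] at this
        exact absurd (by rw [hfb, this.1]) hb
      · rw [hfb] at this
        exact ⟨y', this.2.1, rfl⟩
    by_cases hk : ∃ w, f w = Sum.inl k
    · obtain ⟨w, hw⟩ := hk
      have hne : ∀ u, u ≠ w → f u ≠ Sum.inl k := fun u hu he =>
        hu (f.injective (by change f u = f w; rw [he, hw]))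
      have hvw : v ≠ w := by
        rintro rfl
        rw [hv] at hw
        cases hw
      intro u
      by_cases huw : u = w
      · left; rw [huw]; exact hw
      · right
        exact hB.prop (fun u => ∃ y, y ≠ r ∧ f u = Sum.inr y) w
          (fun a b hab ha hb => hstep a b hab ha (hne b hb)) ⟨x, hxr, hv⟩ hvw u huw
    · push Not at hk
      intro u
      right
      exact prop_of_preconnected hB.2.1.preconnected (fun u => ∃ y, y ≠ r ∧ f u = Sum.inr y)
        (fun a b hab ha => hstep a b hab ha (hk b)) ⟨x, hxr, hv⟩ u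
  · left
    push Not at hex
    intro v
    rcases hfv : f v with a | x
    · exact ⟨a, rfl⟩
    · exact absurd hfv (hex v x)

theorem glu : GluStmt := by
  intro V _ B Z hB K L G k Q r hG hQ h1 h2 ⟨f⟩
  have hadj : ∀ a b, (pend B Z).Adj a b → (glue G k Q r).Adj (f a) (f b) := fun a b h =>
      f.toHom.map_rel h
  have hinj : ∀ a b, f a = f b → a = b := fun a b h => f.injective h
  rcases glue_block hB G k Q r (f.comp (pendInl B Z)) with hL | hR
  · have hL' : ∀ v, ∃ b, f (Sum.inl v) = Sum.inl b := hL
    by_cases hleaf : ∃ z : Z, ∃ y, f (Sum.inr z) = Sum.inr y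
    · obtain ⟨z, y, hy⟩ := hleaf
      obtain ⟨b, hb⟩ := hL' z.1
      have had := hadj (Sum.inl z.1) (Sum.inr z) rfl
      rw [hb, hy] at had
      refine h1 ⟨⟨z.1, z.2, ?_⟩, ⟨y, had.2⟩⟩
      obtain ⟨g, hg⟩ := glue_left G k Q r (f.comp (pendMono B (Z' := Z \ {z.1}) (Z := Z)
        Set.sdiff_subset)) (by
          rintro (v | w)
          · exact hL' v
          · change ∃ b, f (Sum.inr ⟨w.1, _⟩) = Sum.inl b
            rcases hfw : f (Sum.inr ⟨w.1, w.2.1⟩) with c | y'
            · exact ⟨c, rfl⟩
            · exfalso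
              obtain ⟨c, hc⟩ := hL' w.1
              have had' := hadj (Sum.inl w.1) (Sum.inr ⟨w.1, w.2.1⟩) rfl
              rw [hc, hfw] at had'
              have hbk : b = k := had.1
              have hck : c = k := had'.1
              have := hinj (Sum.inl w.1) (Sum.inl z.1) (by rw [hb, hc, hbk, hck])
              exact w.2.2 (Sum.inl_injective this))
      refine ⟨g, ?_⟩
      have := hg (Sum.inl z.1)
      change f (Sum.inl z.1) = _ at this
      rw [hb] at this
      rw [← Sum.inl_injective this]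
      exact had.1
    · push Not at hleaf
      obtain ⟨g, -⟩ := glue_left G k Q r f (by
        rintro (v | z)
        · exact hL' v
        · rcases hfw : f (Sum.inr z) with c | y'
          · exact ⟨c, rfl⟩
          · exact absurd hfw (hleaf z y'))
      exact hG ⟨g⟩
  · have hR' : ∀ v, f (Sum.inl v) = Sum.inl k ∨ ∃ x, x ≠ r ∧ f (Sum.inl v) = Sum.inr x := hR
    by_cases hleaf : ∃ z : Z, ∃ y, y ≠ k ∧ f (Sum.inr z) = Sum.inl y
    · obtain ⟨z, y, hyk, hy⟩ := hleaf
      have had := hadj (Sum.inl z.1) (Sum.inr z) rfl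
      have hzk : f (Sum.inl z.1) = Sum.inl k := by
        rcases hR' z.1 with h | ⟨x, hx, h⟩
        · exact h
        · rw [h, hy] at had
          exact absurd had.1 hyk
      rw [hzk, hy] at had
      refine h2 ⟨⟨z.1, z.2, ?_⟩, ⟨y, had⟩⟩
      obtain ⟨g, hg⟩ := glue_right G k Q r (f.comp (pendMono B (Z' := Z \ {z.1}) (Z := Z)
        Set.sdiff_subset)) (by
          rintro (v | w)
          · exact hR' v
          · change f (Sum.inr ⟨w.1, _⟩) = Sum.inl k ∨ ∃ x, x ≠ r ∧ f (Sum.inr ⟨w.1, _⟩) = Sum.inr x
            have had' := hadj (Sum.inl w.1) (Sum.inr ⟨w.1, w.2.1⟩) rfl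
            rcases hfw : f (Sum.inr ⟨w.1, w.2.1⟩) with c | y'
            · left
              rcases hR' w.1 with h | ⟨x, hx, h⟩
              · have := hinj (Sum.inl w.1) (Sum.inl z.1) (by rw [h, hzk])
                exact absurd (Sum.inl_injective this) w.2.2
              · rw [h, hfw] at had'
                rw [had'.1]
            · right
              refine ⟨y', ?_, rfl⟩
              rcases hR' w.1 with h | ⟨x, hx, h⟩
              · rw [h, hfw] at had'
                exact had'.2.ne'
              · rw [h, hfw] at had'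
                exact had'.2.1)
      refine ⟨g, ?_⟩
      rcases hg (Sum.inl z.1) with h | h
      · exact h.2
      · exfalso
        have h3 := h.1
        change f (Sum.inl z.1) = _ at h3
        rw [hzk] at h3
        cases h3
    · push Not at hleaf
      obtain ⟨g, -⟩ := glue_right G k Q r f (by
        rintro (v | z)
        · exact hR' v
        · have had := hadj (Sum.inl z.1) (Sum.inr z) rfl
          rcases hfw : f (Sum.inr z) with c | y'
          · left
            by_cases hck : c = k
            · rw [hck]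
            · exact absurd hfw (hleaf z c hck)
          · right
            refine ⟨y', ?_, rfl⟩
            rcases hR' z.1 with h | ⟨x, hx, h⟩
            · rw [h, hfw] at had
              exact had.2.ne'
            · rw [h, hfw] at had
              exact had.2.1)
      exact hQ ⟨g⟩

end Pool.Agent.RS80
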