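import Pool.Agent.RS.StmtsT

/-!
# Squad RS, row INC: `N_r` increases with `r` (helper80)
-/

set_option autoImplicit false

namespace Pool.Agent.RS.H80

open Pool.Agent.RS

/-- INC -/
theorem inc : IncStmt := by
  intro E _ j q q' r r' w hr hq h
  classical
  obtain ⟨s, a, u, hg, hw⟩ := h
  refine ⟨s, fun l => if l < r then a l else 0, fun l => if l < r then u l else 1, ?_, ?_⟩
  · intro l _
    by_cases h1 : l < r
    · simp only [if_pos h1]
      rw [← hq l h1]
      exact hg l h1
    · simp only [if_neg h1]
      refine ⟨Subring.one_mem _, 0, Subring.zero_mem _, 1, Subring.one_mem _, ?_, ?_⟩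
      · rw [zero_mul, one_mul, zero_add]
        exact Subring.one_mem _
      · rw [zero_mul, one_mul, zero_add]
        exact one_ne_zero
  · rw [hw]
    rw [← Finset.sum_subset (Finset.range_mono hr)]
    · refine Finset.sum_congr rfl fun l hl => ?_
      have h1 : l < r := Finset.mem_range.1 hl
      simp only [if_pos h1]
      have h2 : ∏ i ∈ Finset.range l, q i = ∏ i ∈ Finset.range l, q' i :=
        Finset.prod_congr rfl fun i hi => hq i (lt_trans (Finset.mem_range.1 hi) h1)
      rw [h2]
    · intro l _ hl
      have h1 : ¬ l < r := fun h => hl (Finset.mem_range.2 h)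
      simp only [if_neg h1, map_zero, zero_div]

end Pool.Agent.RS.H80
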