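import Pool.Agent.Helper80_RS.MGlue

/-!
# Assembly (ASM)
-/

open SimpleGraph

namespace Pool.Agent.RS80

variable {V K K' L A : Type}

/-! ### Basic facts on `Good`, `Sat` -/

theorem Good.swap {H : SimpleGraph A} {G R S : SimpleGraph K} (h : Good H G R S) :
    Good H G S R := ⟨by rw [sup_comm]; exact h.1, h.2.2, h.2.1⟩

theorem Good.adj {H : SimpleGraph A} {G R S : SimpleGraph K} (h : Good H G R S) {a b : K}
    (hab : G.Adj a b) : R.Adj a b ∨ S.Adj a b := by
  rw [← h.1] at hab
  exact hab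

theorem Good.comap {H : SimpleGraph A} {G R S : SimpleGraph K} {G' : SimpleGraph K'}
    (h : Good H G R S) (i : K' → K) (hi : Function.Injective i)
    (hG : ∀ a b, G'.Adj a b ↔ G.Adj (i a) (i b)) :
    Good H G' (R.comap i) (S.comap i) := by
  refine ⟨?_, ?_, ?_⟩
  · ext a b
    rw [hG, ← h.1]
    rfl
  · rintro ⟨f⟩
    exact h.2.1 ⟨⟨⟨fun a => i (f a), fun {a b} hab => f.toHom.map_rel hab⟩,
      hi.comp f.injective⟩⟩
  · rintro ⟨f⟩
    exact h.2.2 ⟨⟨⟨fun a => i (f a), fun {a b} hab => f.toHom.map_rel hab⟩,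
      hi.comp f.injective⟩⟩

/-- A saturated vertex with one more edge, to a vertex outside. -/
theorem Sat.ext {B : SimpleGraph V} {Z : Set V} {G : SimpleGraph K'} {R : SimpleGraph K}
    (i : K' → K) (hi : Function.Injective i) (hG : ∀ a b, G.Adj a b → R.Adj (i a) (i b))
    {v : K'} (hv : Sat B Z G v) {w : K} (hw : R.Adj (i v) w) (hw' : ∀ a, i a ≠ w) :
    pend B Z ⊑ R := by
  classical
  obtain ⟨z, hz, f, hf⟩ := hv
  have hadj : ∀ a b, (pend B (Z \ {z})).Adj a b → R.Adj (i (f a)) (i (f b)) := fun a b h =>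
    hG _ _ (f.toHom.map_rel h)
  have hinj : ∀ a b, i (f a) = i (f b) → a = b := fun a b h => f.injective (hi h)
  let g : V ⊕ Z → K := Sum.elim (fun u => i (f (Sum.inl u)))
    (fun y => if h : y.1 = z then w else i (f (Sum.inr ⟨y.1, y.2, h⟩)))
  have hadj1 : ∀ (u : V) (y : Z), u = y.1 → R.Adj (g (Sum.inl u)) (g (Sum.inr y)) := by
    rintro u y rfl
    by_cases h : y.1 = z
    · have e1 : g (Sum.inr y) = w := by simp [g, h]
      have e2 : g (Sum.inl y.1) = i v := by simp [g, h, hf]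
      rw [e1, e2]
      exact hw
    · have e1 : g (Sum.inr y) = i (f (Sum.inr ⟨y.1, y.2, h⟩)) := by simp [g, h]
      rw [e1]
      exact hadj (Sum.inl y.1) (Sum.inr ⟨y.1, y.2, h⟩) rfl
  refine ⟨⟨⟨g, ?_⟩, ?_⟩⟩
  · rintro (u | y) (u' | y') h
    · exact hadj (Sum.inl u) (Sum.inl u') h
    · exact hadj1 u y' h
    · exact (hadj1 u' y h).symm
    · exact h.elim
  · rintro (u | y) (u' | y') h
    · have := hinj (Sum.inl u) (Sum.inl u') h
      simpa using this
    · exfalso
      change g (Sum.inl u) = g (Sum.inr y') at h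
      by_cases hy : y'.1 = z
      · have e1 : g (Sum.inr y') = w := by simp [g, hy]
        rw [e1] at h
        exact hw' _ h
      · have e1 : g (Sum.inr y') = i (f (Sum.inr ⟨y'.1, y'.2, hy⟩)) := by simp [g, hy]
        rw [e1] at h
        have := hinj (Sum.inl u) (Sum.inr ⟨y'.1, y'.2, hy⟩) h
        cases this
    · exfalso
      change g (Sum.inr y) = g (Sum.inl u') at h
      by_cases hy : y.1 = z
      · have e1 : g (Sum.inr y) = w := by simp [g, hy]
        rw [e1] at h
        exact hw' _ h.symm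
      · have e1 : g (Sum.inr y) = i (f (Sum.inr ⟨y.1, y.2, hy⟩)) := by simp [g, hy]
        rw [e1] at h
        have := hinj (Sum.inr ⟨y.1, y.2, hy⟩) (Sum.inl u') h
        cases this
    · change g (Sum.inr y) = g (Sum.inr y') at h
      by_cases hy : y.1 = z <;> by_cases hy' : y'.1 = z
      · exact congrArg _ (Subtype.ext (hy.trans hy'.symm))
      · have e1 : g (Sum.inr y) = w := by simp [g, hy]
        have e2 : g (Sum.inr y') = i (f (Sum.inr ⟨y'.1, y'.2, hy'⟩)) := by simp [g, hy']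
        rw [e1, e2] at h
        exact absurd h.symm (hw' _)
      · have e1 : g (Sum.inr y') = w := by simp [g, hy']
        have e2 : g (Sum.inr y) = i (f (Sum.inr ⟨y.1, y.2, hy⟩)) := by simp [g, hy]
        rw [e1, e2] at h
        exact absurd h (hw' _)
      · have e1 : g (Sum.inr y) = i (f (Sum.inr ⟨y.1, y.2, hy⟩)) := by simp [g, hy]
        have e2 : g (Sum.inr y') = i (f (Sum.inr ⟨y'.1, y'.2, hy'⟩)) := by simp [g, hy']
        rw [e1, e2] at h
        have := hinj (Sum.inr ⟨y.1, y.2, hy⟩) (Sum.inr ⟨y'.1, y'.2, hy'⟩) h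
        have h2 := congrArg Subtype.val (Sum.inr_injective this)
        exact congrArg _ (Subtype.ext h2)

theorem Sat.mono {B : SimpleGraph V} {Z : Set V} {G : SimpleGraph K'} {R : SimpleGraph K}
    (i : K' → K) (hi : Function.Injective i) (hG : ∀ a b, G.Adj a b → R.Adj (i a) (i b))
    {v : K'} (hv : Sat B Z G v) : Sat B Z R (i v) := by
  obtain ⟨z, hz, f, hf⟩ := hv
  exact ⟨z, hz, ⟨⟨fun a => i (f a), fun {a b} hab => hG _ _ (f.toHom.map_rel hab)⟩,
    hi.comp f.injective⟩, congrArg i hf⟩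

theorem Sat.exists_adj {B : SimpleGraph V} (hB : TwoConn B) {Z : Set V} {G : SimpleGraph K}
    {v : K} (hv : Sat B Z G v) : ∃ w, G.Adj v w := by
  obtain ⟨z, hz, f, hf⟩ := hv
  obtain ⟨u, hu⟩ := hB.exists_adj z
  refine ⟨f (Sum.inl u), ?_⟩
  rw [← hf]
  exact f.toHom.map_rel (a := Sum.inl z) (b := Sum.inl u) hu

/-- A doubly saturated root has no room for a pendant edge. -/
theorem not_inC_cone {B : SimpleGraph V} {Z : Set V} {G : SimpleGraph K} {v : K}
    (h : ∀ R S, Good (pend B Z) G R S → Sat B Z R v ∧ Sat B Z S v) :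
    ¬ InC (pend B Z) (cone G {v}) := by
  rintro ⟨R, S, hRS⟩
  have hi : Function.Injective (some : K → Option K) := Option.some_injective K
  have h1 := hRS.comap (G' := G) some hi (fun a b => Iff.rfl)
  obtain ⟨hR, hS⟩ := h _ _ h1
  have hadj : (cone G {v}).Adj (some v) none := Set.mem_singleton v
  rcases hRS.adj hadj with h2 | h2
  · exact hRS.2.1 (hR.ext some hi (fun a b hab => hab) h2 (fun a => Option.some_ne_none a))
  · exact hRS.2.2 (hS.ext some hi (fun a b hab => hab) h2 (fun a => Option.some_ne_none a))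

/-! ### Two clean cells glued at their root -/

theorem glue_sup (G₁ G₂ : SimpleGraph K) (k : K) (Q₁ Q₂ : SimpleGraph L) (r : L) :
    glue G₁ k Q₁ r ⊔ glue G₂ k Q₂ r = glue (G₁ ⊔ G₂) k (Q₁ ⊔ Q₂) r := by
  ext x y
  rcases x with a | x <;> rcases y with b | y
  · exact Iff.rfl
  · change (a = k ∧ Q₁.Adj r y) ∨ (a = k ∧ Q₂.Adj r y) ↔ a = k ∧ (Q₁.Adj r y ∨ Q₂.Adj r y)
    tauto
  · change (b = k ∧ Q₁.Adj r x) ∨ (b = k ∧ Q₂.Adj r x) ↔ b = k ∧ (Q₁.Adj r x ∨ Q₂.Adj r x)
    tauto
  · change (x ≠ r ∧ y ≠ r ∧ Q₁.Adj x y) ∨ (x ≠ r ∧ y ≠ r ∧ Q₂.Adj x y) ↔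
      x ≠ r ∧ y ≠ r ∧ (Q₁.Adj x y ∨ Q₂.Adj x y)
    tauto

theorem double {B : SimpleGraph V} [Finite V] {Z : Set V} (hB : TwoConn B) [Finite K]
    (G : SimpleGraph K) (u : K) (R₀ S₀ : SimpleGraph K) (hG : Good (pend B Z) G R₀ S₀)
    (hclean : ∀ x, ¬ S₀.Adj u x)
    (hP : ∀ R S, Good (pend B Z) G R S → Sat B Z R u ∨ Sat B Z S u) :
    ∃ (K' : Type) (_ : Finite K') (G' : SimpleGraph K') (v : K'),
      InC (pend B Z) G' ∧ ¬ InC (pend B Z) (cone G' {v}) := by
  classical
  refine ⟨K ⊕ K, inferInstance, glue G u G u, Sum.inl u, ?_, ?_⟩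
  · have hS : ¬ Sat B Z S₀ u := fun h => by
      obtain ⟨w, hw⟩ := h.exists_adj hB
      exact hclean w hw
    refine ⟨glue R₀ u S₀ u, glue S₀ u R₀ u, ?_, ?_, ?_⟩
    · rw [glue_sup, hG.1, sup_comm S₀ R₀, hG.1]
    · exact glu V B Z hB K K R₀ u S₀ u hG.2.1 hG.2.2 (fun h => by
        obtain ⟨w, hw⟩ := h.2
        exact hclean w hw) (fun h => hS h.1)
    · exact glu V B Z hB K K S₀ u R₀ u hG.2.2 hG.2.1 (fun h => hS h.1) (fun h => by
        obtain ⟨w, hw⟩ := h.2
        exact hclean w hw)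
  · apply not_inC_cone
    intro R S hRS
    -- first copy
    have hi1 : Function.Injective (Sum.inl : K → K ⊕ K) := Sum.inl_injective
    have h1 := hRS.comap (G' := G) Sum.inl hi1 (fun a b => Iff.rfl)
    -- second copy
    let i2 : K → K ⊕ K := fun x => if x = u then Sum.inl u else Sum.inr x
    have hi2u : i2 u = Sum.inl u := by simp [i2]
    have hi2n : ∀ x, x ≠ u → i2 x = Sum.inr x := fun x hx => by simp [i2, hx]
    have hi2 : Function.Injective i2 := by
      intro x y hxy
      by_cases hx : x = u <;> by_cases hy : y = u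
      · rw [hx, hy]
      · rw [hx, hi2u, hi2n y hy] at hxy
        cases hxy
      · rw [hy, hi2u, hi2n x hx] at hxy
        cases hxy
      · rw [hi2n x hx, hi2n y hy] at hxy
        exact Sum.inr_injective hxy
    have h2 := hRS.comap (G' := G) i2 hi2 (fun a b => by
      by_cases ha : a = u <;> by_cases hb : b = u
      · subst ha
        subst hb
        simp
      · subst ha
        rw [hi2u, hi2n b hb]
        change _ ↔ a = a ∧ G.Adj a b
        tauto
      · subst hb
        rw [hi2u, hi2n a ha]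
        change _ ↔ b = b ∧ G.Adj b a
        rw [G.adj_comm]
        tauto
      · rw [hi2n a ha, hi2n b hb]
        change _ ↔ a ≠ u ∧ b ≠ u ∧ G.Adj a b
        tauto)
    -- key: no colour can be saturated in both copies
    have key : ∀ R' : SimpleGraph (K ⊕ K), (pend B Z).Free R' → Sat B Z (R'.comap Sum.inl) u →
        Sat B Z (R'.comap i2) u → False := by
      intro R' hfree ha hb
      obtain ⟨w, hw⟩ := hb.exists_adj hB
      have hw' : R'.Adj (i2 u) (i2 w) := hw
      have hwu : w ≠ u := by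
        rintro rfl
        exact hw'.ne rfl
      rw [hi2u, hi2n w hwu] at hw'
      exact hfree (ha.ext Sum.inl hi1 (fun a b hab => hab) hw' (fun a => Sum.inl_ne_inr))
    have tr1 : ∀ R' : SimpleGraph (K ⊕ K), Sat B Z (R'.comap Sum.inl) u →
        Sat B Z R' (Sum.inl u) := fun R' h => h.mono Sum.inl hi1 (fun a b hab => hab)
    have tr2 : ∀ R' : SimpleGraph (K ⊕ K), Sat B Z (R'.comap i2) u →
        Sat B Z R' (Sum.inl u) := fun R' h => by
      have := h.mono (R := R') i2 hi2 (fun a b hab => hab)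
      rwa [hi2u] at this
    rcases hP _ _ h1 with ha | ha <;> rcases hP _ _ h2 with hb | hb
    · exact (key R hRS.2.1 ha hb).elim
    · exact ⟨tr1 R ha, tr2 S hb⟩
    · exact ⟨tr2 R hb, tr1 S ha⟩
    · exact (key S hRS.2.2 ha hb).elim

/-! ### The cell -/

/-- An injection of a finite type into `P` which maps `A` into `M`. -/
theorem exists_inj {X Y : Type} [Finite X] (A : Set X) (M P : Set Y) (hM : M ⊆ P)
    (hP : P.Finite) (h1 : A.ncard ≤ M.ncard) (h2 : Nat.card X ≤ P.ncard) :
    ∃ g : X → Y, Function.Injective g ∧ (∀ x, g x ∈ P) ∧ ∀ x ∈ A, g x ∈ M := by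
  classical
  have hMfin : M.Finite := hP.subset hM
  obtain ⟨M', hM'M, hM'c⟩ := Set.exists_subset_card_eq h1
  have hM'fin : M'.Finite := hMfin.subset hM'M
  have hA : A.Finite := Set.toFinite A
  -- injection on A
  obtain ⟨e₁⟩ : Nonempty (A ≃ M') := by
    have := hM'fin.to_subtype
    exact Finite.card_eq.1 (by
      rw [Nat.card_coe_set_eq, Nat.card_coe_set_eq, hM'c])
  -- injection on the complement
  have hcard : Nat.card ↥(Aᶜ : Set X) ≤ Nat.card ↥(P \ M' : Set Y) := by
    rw [Nat.card_coe_set_eq, Nat.card_coe_set_eq, Set.ncard_compl A,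
      Set.ncard_sdiff (hM'M.trans hM) hM'fin, hM'c]
    omega
  have : Finite ↥(P \ M' : Set Y) := (hP.subset Set.sdiff_subset).to_subtype
  obtain ⟨e₂⟩ : Nonempty (↥(Aᶜ : Set X) ↪ ↥(P \ M' : Set Y)) := by
    have := Fintype.ofFinite ↥(Aᶜ : Set X)
    have := Fintype.ofFinite ↥(P \ M' : Set Y)
    rw [Nat.card_eq_fintype_card, Nat.card_eq_fintype_card] at hcard
    exact Function.Embedding.nonempty_of_card_le hcard
  refine ⟨fun x => if h : x ∈ A then (e₁ ⟨x, h⟩).1 else (e₂ ⟨x, h⟩).1, ?_, ?_, ?_⟩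
  · intro x y hxy
    by_cases hx : x ∈ A <;> by_cases hy : y ∈ A
    · simp only [hx, hy, dite_true] at hxy
      have := e₁.injective (Subtype.ext hxy)
      exact congrArg Subtype.val this
    · simp only [hx, hy, dite_true, dite_false] at hxy
      exact absurd (hxy ▸ (e₁ ⟨x, hx⟩).2) (e₂ ⟨y, hy⟩).2.2
    · simp only [hx, hy, dite_true, dite_false] at hxy
      exact absurd (hxy.symm ▸ (e₁ ⟨y, hy⟩).2) (e₂ ⟨x, hx⟩).2.2
    · simp only [hx, hy, dite_false] at hxy
      have := e₂.injective (Subtype.ext hxy)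
      exact congrArg Subtype.val this
  · intro x
    by_cases hx : x ∈ A
    · simp only [hx, dite_true]
      exact hM (hM'M (e₁ ⟨x, hx⟩).2)
    · simp only [hx, dite_false]
      exact (e₂ ⟨x, hx⟩).2.1
  · intro x hx
    simp only [hx, dite_true]
    exact hM'M (e₁ ⟨x, hx⟩).2

/-- The clique on `P + none`. -/
def skR {K : Type} (P : Set K) : SimpleGraph (Option K) where
  Adj x y := x ≠ y ∧ (∀ a, x = some a → a ∈ P) ∧ (∀ b, y = some b → b ∈ P)
  symm := ⟨fun _ _ h => ⟨h.1.symm, h.2.2, h.2.1⟩⟩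
  loopless := ⟨fun _ h => h.1 rfl⟩

/-- `D` on `Option K`. -/
def skS {K : Type} (D : SimpleGraph K) : SimpleGraph (Option K) where
  Adj x y := ∃ a b, x = some a ∧ y = some b ∧ D.Adj a b
  symm := ⟨fun _ _ ⟨a, b, ha, hb, h⟩ => ⟨b, a, hb, ha, h.symm⟩⟩
  loopless := ⟨fun _ ⟨_, _, ha, hb, h⟩ => h.ne (Option.some_injective _ (ha.symm.trans hb))⟩

/-- The vertices carrying a gadget. -/
def skT {K : Type} (P : Set K) : Set (Option K) := {x | ∃ a, a ∉ P ∧ x = some a}

theorem skR_free {B : SimpleGraph V} [Finite V] {Z : Set V} (hB : TwoConn B) [Finite K]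
    (P : Set K) (hP : P.ncard + 2 = Nat.card (V ⊕ Z)) : (pend B Z).Free (skR P) := by
  classical
  rintro ⟨f⟩
  have hadj : ∀ a b, (pend B Z).Adj a b → (skR P).Adj (f a) (f b) := fun _ _ h =>
    f.toHom.map_rel h
  have hnb : ∀ x : V ⊕ Z, ∃ y, (pend B Z).Adj x y := by
    rintro (v | z)
    · obtain ⟨u, hu⟩ := hB.exists_adj v
      exact ⟨Sum.inl u, hu⟩
    · exact ⟨Sum.inl z.1, rfl⟩
  have hmem : ∀ x : V ⊕ Z, f x ∈ insert none (some '' P) := by
    intro x
    obtain ⟨y, hy⟩ := hnb x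
    have := (hadj x y hy).2.1
    rcases hfx : f x with _ | a
    · exact Set.mem_insert _ _
    · exact Set.mem_insert_of_mem _ ⟨a, this a hfx, rfl⟩
  have h1 : Nat.card (V ⊕ Z) ≤ (insert none (some '' P) : Set (Option K)).ncard := by
    rw [← Set.ncard_univ, ← Set.ncard_image_of_injective _
      (show Function.Injective f from f.injective)]
    apply Set.ncard_le_ncard _ (Set.toFinite _)
    rintro _ ⟨x, -, rfl⟩
    exact hmem x
  have h2 : (insert none (some '' P) : Set (Option K)).ncard ≤ (some '' P).ncard + 1 :=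
    Set.ncard_insert_le _ _
  have h3 : (some '' P : Set (Option K)).ncard = P.ncard :=
    Set.ncard_image_of_injective _ (Option.some_injective K)
  omega

theorem skS_free {B : SimpleGraph V} (hB : TwoConn B) (D : SimpleGraph K) (hD : B.Free D) :
    B.Free (skS D) := by
  rintro ⟨f⟩
  have hadj : ∀ a b, B.Adj a b → (skS D).Adj (f a) (f b) := fun a b h => f.toHom.map_rel h
  have hsome : ∀ v, ∃ a, f v = some a := by
    intro v
    obtain ⟨u, hu⟩ := hB.exists_adj v
    obtain ⟨a, b, ha, -⟩ := hadj v u hu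
    exact ⟨a, ha⟩
  choose g hg using hsome
  refine hD ⟨⟨⟨g, fun {a b} hab => ?_⟩, fun a b hab => ?_⟩⟩
  · obtain ⟨x, y, hx, hy, hxy⟩ := hadj a b hab
    rw [hg] at hx hy
    rw [Option.some_injective _ hx, Option.some_injective _ hy]
    exact hxy
  · apply f.injective
    change f a = f b
    change g a = g b at hab
    rw [hg, hg, hab]

theorem mglue_sup (G₁ G₂ : SimpleGraph K) (T : Set K) (Q₁ Q₂ : SimpleGraph L) (r : L) :
    mglue G₁ T Q₁ r ⊔ mglue G₂ T Q₂ r = mglue (G₁ ⊔ G₂) T (Q₁ ⊔ Q₂) r := by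
  ext x y
  rcases x with a | x <;> rcases y with b | y
  · exact Iff.rfl
  · change (a ∈ T ∧ y.1 = a ∧ Q₁.Adj r y.2) ∨ (a ∈ T ∧ y.1 = a ∧ Q₂.Adj r y.2) ↔
      a ∈ T ∧ y.1 = a ∧ (Q₁.Adj r y.2 ∨ Q₂.Adj r y.2)
    tauto
  · change (b ∈ T ∧ x.1 = b ∧ Q₁.Adj r x.2) ∨ (b ∈ T ∧ x.1 = b ∧ Q₂.Adj r x.2) ↔
      b ∈ T ∧ x.1 = b ∧ (Q₁.Adj r x.2 ∨ Q₂.Adj r x.2)
    tauto
  · change (x.1 ∈ T ∧ x.1 = y.1 ∧ x.2 ≠ r ∧ y.2 ≠ r ∧ Q₁.Adj x.2 y.2) ∨
      (x.1 ∈ T ∧ x.1 = y.1 ∧ x.2 ≠ r ∧ y.2 ≠ r ∧ Q₂.Adj x.2 y.2) ↔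
      x.1 ∈ T ∧ x.1 = y.1 ∧ x.2 ≠ r ∧ y.2 ≠ r ∧ (Q₁.Adj x.2 y.2 ∨ Q₂.Adj x.2 y.2)
    tauto

/-- Everything about the cell, the gadgets at `T` all red saturated. -/
theorem cell_core {B : SimpleGraph V} [Finite V] {Z : Set V} [Finite K]
    (c : B.Coloring Bool) (z : V) (hz : z ∈ Z) (D : SimpleGraph K) (P : Set K)
    (hPind : ∀ p ∈ P, ∀ q ∈ P, ¬ D.Adj p q) (hPc : P.ncard + 2 = Nat.card (V ⊕ Z))
    (hedge : ∀ p ∈ P, ∀ q ∈ P, p ≠ q → pend B Z ⊑ D ⊔ edge p q)
    (hcone : ∀ S ⊆ P, S.ncard = {v | c v = c z}.ncard →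
        pend B Z ⊑ cone D S ∨ Sat B Z (cone D S) none)
    (Q : SimpleGraph L) (t : L) (R S : SimpleGraph (Option K ⊕ Option K × L))
    (hRS : Good (pend B Z) (mglue (skR P ⊔ skS D) (skT P) Q t) R S)
    (hsat : ∀ a ∉ P, ∀ y, (skR P ⊔ skS D).Adj (some a) y →
      S.Adj (Sum.inl (some a)) (Sum.inl y)) :
    Sat B Z R (Sum.inl none) ∨ Sat B Z S (Sum.inl none) := by
  classical
  -- the edges of `D` are blue
  have hD : ∀ a b, D.Adj a b → S.Adj (Sum.inl (some a)) (Sum.inl (some b)) := by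
    intro a b hab
    by_cases ha : a ∈ P
    · by_cases hb : b ∈ P
      · exact absurd hab (hPind a ha b hb)
      · exact (hsat b hb (some a) (Or.inr ⟨b, a, rfl, rfl, hab.symm⟩)).symm
    · exact hsat a ha (some b) (Or.inr ⟨a, b, rfl, rfl, hab⟩)
  -- the edges inside `P` are red
  have hPP : ∀ p ∈ P, ∀ q ∈ P, p ≠ q → R.Adj (Sum.inl (some p)) (Sum.inl (some q)) := by
    intro p hp q hq hpq
    have hadj : (mglue (skR P ⊔ skS D) (skT P) Q t).Adj (Sum.inl (some p)) (Sum.inl (some q)) := by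
      refine Or.inl ⟨fun h => hpq (Option.some_injective _ h), ?_, ?_⟩
      · intro a ha
        rw [← Option.some_injective _ ha]
        exact hp
      · intro a ha
        rw [← Option.some_injective _ ha]
        exact hq
    rcases hRS.adj hadj with h | h
    · exact h
    · exfalso
      obtain ⟨f⟩ := hedge p hp q hq hpq
      refine hRS.2.2 ⟨⟨⟨fun x => Sum.inl (some (f x)), fun {x y} hxy => ?_⟩, ?_⟩⟩
      · have := f.toHom.map_rel hxy
        change (D ⊔ edge p q).Adj (f x) (f y) at this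
        rcases this with h1 | h1
        · exact hD _ _ h1
        · rw [edge_adj] at h1
          rcases h1.1 with h2 | h2
          · rw [h2.1, h2.2]
            exact h
          · rw [h2.1, h2.2]
            exact h.symm
      · intro x y hxy
        exact f.injective (Option.some_injective _ (Sum.inl_injective hxy))
  have hnone : ∀ p ∈ P, R.Adj (Sum.inl none) (Sum.inl (some p)) ∨
      S.Adj (Sum.inl none) (Sum.inl (some p)) := by
    intro p hp
    apply hRS.adj
    refine Or.inl ⟨fun h => (Option.some_ne_none p h.symm), ?_, ?_⟩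
    · intro a ha
      cases ha
    · intro a ha
      rw [← Option.some_injective _ ha]
      exact hp
  -- blue neighbours of the root
  set N : Set K := {p | p ∈ P ∧ S.Adj (Sum.inl none) (Sum.inl (some p))} with hN
  have hNP : N ⊆ P := fun p hp => hp.1
  by_cases hcase : {v | c v = c z}.ncard ≤ N.ncard
  · right
    obtain ⟨S₀, hS₀, hS₀c⟩ := Set.exists_subset_card_eq hcase
    let i : Option K → Option K ⊕ Option K × L := Sum.inl
    have hi : Function.Injective i := Sum.inl_injective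
    have hiadj : ∀ a b, (cone D S₀).Adj a b → S.Adj (i a) (i b) := by
      rintro (_ | a) (_ | b) hab
      · exact hab.elim
      · exact (hS₀ hab).2
      · exact (hS₀ hab).2.symm
      · exact hD a b hab
    rcases hcone S₀ (hS₀.trans hNP) hS₀c with h | h
    · obtain ⟨f⟩ := h
      exact absurd ⟨⟨⟨fun x => i (f x), fun {x y} hxy => hiadj _ _ (f.toHom.map_rel hxy)⟩,
        hi.comp f.injective⟩⟩ hRS.2.2
    · exact h.mono i hi hiadj
  · left
    push Not at hcase
    set M : Set K := P \ N with hM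
    have hMR : ∀ p ∈ M, R.Adj (Sum.inl none) (Sum.inl (some p)) := by
      intro p hp
      rcases hnone p hp.1 with h | h
      · exact h
      · exact absurd ⟨hp.1, h⟩ hp.2
    have hMc : M.ncard = P.ncard - N.ncard := Set.ncard_sdiff hNP (Set.toFinite _)
    -- the remaining vertices of `B` with the other pendant edges
    let X : Type := {x : V ⊕ ↥(Z \ {z}) // x ≠ Sum.inl z}
    let A : Set X := {x | (pend B (Z \ {z})).Adj (Sum.inl z) x.1}
    have hAc : A.ncard ≤ {v | c v ≠ c z}.ncard := by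
      apply Set.ncard_le_ncard_of_injOn (fun x : X => Sum.elim id (fun _ => z) x.1)
      · rintro ⟨(v | w), hx⟩ hadj
        · exact (c.valid hadj).symm
        · exact absurd (Eq.symm (show z = w.1 from hadj)) w.2.2
      · rintro ⟨(v | w), hx⟩ hadj ⟨(v' | w'), hx'⟩ hadj' h
        · exact Subtype.ext (congrArg Sum.inl h)
        · exact absurd (Eq.symm (show z = w'.1 from hadj')) w'.2.2
        · exact absurd (Eq.symm (show z = w.1 from hadj)) w.2.2
        · exact absurd (Eq.symm (show z = w.1 from hadj)) w.2.2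
    have hVc : {v | c v = c z}.ncard + {v | c v ≠ c z}.ncard = Nat.card V :=
      Set.ncard_add_ncard_compl {v | c v = c z}
    have hZc : Z.ncard = (Z \ {z}).ncard + 1 := by
      rw [Set.ncard_sdiff_singleton_add_one hz (Set.toFinite _)]
    have hVZ : Nat.card (V ⊕ Z) = Nat.card V + Z.ncard := by
      rw [Nat.card_sum, Nat.card_coe_set_eq]
    have hXc : Nat.card X + 1 = Nat.card V + (Z \ {z}).ncard := by
      have h1 : Nat.card X = ({Sum.inl z}ᶜ : Set (V ⊕ ↥(Z \ {z}))).ncard := by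
        rw [← Nat.card_coe_set_eq]
        rfl
      have h2 := Set.ncard_add_ncard_compl ({Sum.inl z} : Set (V ⊕ ↥(Z \ {z})))
      rw [Set.ncard_singleton, Nat.card_sum, Nat.card_coe_set_eq] at h2
      omega
    obtain ⟨g, hg, hgP, hgM⟩ := exists_inj A M P Set.sdiff_subset (Set.toFinite _)
      (by omega) (by omega)
    let φ : V ⊕ ↥(Z \ {z}) → Option K ⊕ Option K × L := fun x =>
      if h : x = Sum.inl z then Sum.inl none else Sum.inl (some (g ⟨x, h⟩))
    have hφz : φ (Sum.inl z) = Sum.inl none := by simp [φ]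
    have hφn : ∀ x (h : x ≠ Sum.inl z), φ x = Sum.inl (some (g ⟨x, h⟩)) := fun x h => by
      simp [φ, h]
    refine ⟨z, hz, ⟨⟨φ, ?_⟩, ?_⟩, hφz⟩
    · intro x y hxy
      by_cases hx : x = Sum.inl z <;> by_cases hy : y = Sum.inl z
      · subst hx
        subst hy
        exact absurd rfl hxy.ne
      · subst hx
        rw [hφz, hφn y hy]
        exact hMR _ (hgM ⟨y, hy⟩ hxy)
      · subst hy
        rw [hφz, hφn x hx]
        exact (hMR _ (hgM ⟨x, hx⟩ hxy.symm)).symm
      · rw [hφn x hx, hφn y hy]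
        refine hPP _ (hgP _) _ (hgP _) (fun h => ?_)
        have := hg h
        exact hxy.ne (congrArg Subtype.val this)
    · intro x y hxy
      change φ x = φ y at hxy
      by_cases hx : x = Sum.inl z <;> by_cases hy : y = Sum.inl z
      · rw [hx, hy]
      · rw [hx, hφz, hφn y hy] at hxy
        exact absurd (Sum.inl_injective hxy) (by simp)
      · rw [hy, hφz, hφn x hx] at hxy
        exact absurd (Sum.inl_injective hxy) (by simp)
      · rw [hφn x hx, hφn y hy] at hxy
        have := hg (Option.some_injective _ (Sum.inl_injective hxy))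
        exact congrArg Subtype.val this

theorem asm (hPon : PonStmt) (hSke : SkeStmt) : AsmStmt := by
  classical
  intro V _ B Z hB hcol hZ hne
  obtain ⟨L, _, Q, t, hQC, hQP⟩ := hPon V B Z hB hcol hZ hne
  by_cases hall : ∀ R S, Good (pend B Z) Q R S → Sat B Z R t ∧ Sat B Z S t
  · exact ⟨L, inferInstance, Q, t, hQC, not_inC_cone hall⟩
  -- a colouring with exactly one saturated colour
  obtain ⟨RQ, SQ, hQ, hRt, hSt⟩ : ∃ R S, Good (pend B Z) Q R S ∧ Sat B Z R t ∧
      ¬ Sat B Z S t := by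
    push Not at hall
    obtain ⟨R, S, hRS, h⟩ := hall
    by_cases hR : Sat B Z R t
    · exact ⟨R, S, hRS, hR, h hR⟩
    · rcases hQP R S hRS with h1 | h1
      · exact absurd h1 hR
      · exact ⟨S, R, hRS.swap, h1, hR⟩
  obtain ⟨c₀⟩ := hcol
  let c : B.Coloring Bool := Coloring.mk (fun v => decide (c₀ v = 0)) (by
    intro a b hab heq
    have h1 := c₀.valid hab
    have h2 : (c₀ a = 0) ↔ (c₀ b = 0) := by
      simpa using heq
    apply h1
    omega)
  obtain ⟨z, hz⟩ := hZ
  obtain ⟨K, _, D, P, hDB, hPind, hPc, ⟨t₀, ht₀⟩, hlink, hedge, hcone⟩ := hSke V B Z hB c z hz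
  set G : SimpleGraph (Option K ⊕ Option K × L) := mglue (skR P ⊔ skS D) (skT P) Q t with hG
  -- the good colouring
  have hgood : Good (pend B Z) G (mglue (skR P) (skT P) RQ t) (mglue (skS D) (skT P) SQ t) := by
    refine ⟨?_, ?_, ?_⟩
    · rw [mglue_sup, hQ.1]
    · apply mgb V B Z hB _ _ _ _ _ _ (skR_free hB P hPc) hQ.2.1
      rintro x ⟨a, ha, rfl⟩ y hy
      exact ha (hy.2.1 a rfl)
    · exact mga V B Z hB _ _ _ _ _ _ (skS_free hB D hDB) hQ.2.2 hSt
  refine double hB G (Sum.inl none) _ _ hgood ?_ ?_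
  · rintro (x | x) hx
    · obtain ⟨a, b, ha, -⟩ := hx
      cases ha
    · obtain ⟨⟨a, -, ha⟩, -⟩ := hx
      cases ha
  · intro R S hRS
    -- the gadgets
    let i : K → L → Option K ⊕ Option K × L := fun a y =>
      if y = t then Sum.inl (some a) else Sum.inr (some a, y)
    have hit : ∀ a, i a t = Sum.inl (some a) := fun a => by simp [i]
    have hin : ∀ a y, y ≠ t → i a y = Sum.inr (some a, y) := fun a y hy => by simp [i, hy]
    have hiinj : ∀ a, Function.Injective (i a) := by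
      intro a x y hxy
      by_cases hx : x = t <;> by_cases hy : y = t
      · rw [hx, hy]
      · rw [hx, hit, hin a y hy] at hxy
        cases hxy
      · rw [hy, hit, hin a x hx] at hxy
        cases hxy
      · rw [hin a x hx, hin a y hy] at hxy
        exact (Prod.ext_iff.1 (Sum.inr_injective hxy)).2
    have hiadj : ∀ a ∉ P, ∀ x y, Q.Adj x y ↔ G.Adj (i a x) (i a y) := by
      intro a ha x y
      have haT : some a ∈ skT P := ⟨a, ha, rfl⟩
      by_cases hx : x = t <;> by_cases hy : y = t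
      · subst hx
        subst hy
        simp
      · subst hx
        rw [hit, hin a y hy]
        change _ ↔ some a ∈ skT P ∧ some a = some a ∧ Q.Adj x y
        tauto
      · subst hy
        rw [hit, hin a x hx]
        change _ ↔ some a ∈ skT P ∧ some a = some a ∧ Q.Adj y x
        rw [Q.adj_comm]
        tauto
      · rw [hin a x hx, hin a y hy]
        change _ ↔ some a ∈ skT P ∧ some a = some a ∧ x ≠ t ∧ y ≠ t ∧ Q.Adj x y
        tauto
    have hsat : ∀ a ∉ P, Sat B Z (R.comap (i a)) t ∨ Sat B Z (S.comap (i a)) t :=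
      fun a ha => hQP _ _ (hRS.comap (i a) (hiinj a) (hiadj a ha))
    -- a saturated gadget forbids outside edges of its colour
    have hforb : ∀ R' : SimpleGraph (Option K ⊕ Option K × L), (pend B Z).Free R' →
        ∀ a, Sat B Z (R'.comap (i a)) t → ∀ y, some a ≠ y →
          ¬ R'.Adj (Sum.inl (some a)) (Sum.inl y) := by
      intro R' hR' a ha y hay hadj
      refine hR' (ha.ext (i a) (hiinj a) (fun _ _ h => h) (w := Sum.inl y) ?_ ?_)
      · rw [hit]
        exact hadj
      · intro x hx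
        by_cases hxt : x = t
        · rw [hxt, hit] at hx
          exact hay (Sum.inl_injective hx)
        · rw [hin a x hxt] at hx
          cases hx
    -- propagation
    have hprop : ∀ R' S' : SimpleGraph (Option K ⊕ Option K × L), Good (pend B Z) G R' S' →
        (∀ a ∉ P, Sat B Z (R'.comap (i a)) t ∨ Sat B Z (S'.comap (i a)) t) →
        Sat B Z (R'.comap (i t₀)) t → ∀ a ∉ P, Sat B Z (R'.comap (i a)) t := by
      intro R' S' hRS' hsat' h0 a ha
      have hstep : ∀ x y, x ∉ P → y ∉ P → D.Adj x y → Sat B Z (R'.comap (i x)) t →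
          Sat B Z (R'.comap (i y)) t := by
        intro x y hx hy hxy hsx
        have hadj : G.Adj (Sum.inl (some x)) (Sum.inl (some y)) :=
          Or.inr ⟨x, y, rfl, rfl, hxy⟩
        have hne' : some x ≠ some y := fun h => hxy.ne (Option.some_injective _ h)
        rcases hRS'.adj hadj with h | h
        · exact absurd h (hforb R' hRS'.2.1 x hsx _ hne')
        · rcases hsat' y hy with h' | h'
          · exact h'
          · exact absurd h.symm (hforb S' hRS'.2.2 y h' _ hne'.symm)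
      have hl := hlink t₀ ht₀ a ha
      induction hl with
      | refl => exact h0
      | tail _ hbc ih => exact hstep _ _ hbc.1 hbc.2.1 hbc.2.2 (ih hbc.1)
    -- all edges at gadget vertices have the other colour
    have hcore : ∀ R' S' : SimpleGraph (Option K ⊕ Option K × L), Good (pend B Z) G R' S' →
        (∀ a ∉ P, Sat B Z (R'.comap (i a)) t) →
        Sat B Z R' (Sum.inl none) ∨ Sat B Z S' (Sum.inl none) := by
      intro R' S' hRS' hall'
      refine cell_core c z hz D P hPind hPc hedge hcone Q t R' S' hRS' ?_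
      intro a ha y hay
      have hadj : G.Adj (Sum.inl (some a)) (Sum.inl y) := hay
      rcases hRS'.adj hadj with h | h
      · exact absurd h (hforb R' hRS'.2.1 a (hall' a ha) y hay.ne)
      · exact h
    rcases hsat t₀ ht₀ with h0 | h0
    · exact hcore R S hRS (hprop R S hRS hsat h0)
    · exact (hcore S R hRS.swap (hprop S R hRS.swap (fun a ha => (hsat a ha).symm) h0)).symm

end Pool.Agent.RS80
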