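import Mathlib

/-!
# MP_ff6f12_co: definitions (squad RS)
-/

open SimpleGraph

namespace Pool.Agent.RS80

/-- `G` is 2-Ramsey for `H`: for every splitting of the edges of `G` into a red graph `R` and the
blue graph `G \ R`, one of the two contains a copy of `H`. -/
def Arrows {V W : Type} (G : SimpleGraph V) (H : SimpleGraph W) : Prop :=
  ∀ R : SimpleGraph V, R ≤ G → H ⊑ R ∨ H ⊑ G \ R

/-- `G` is minimal 2-Ramsey for `H`: it is 2-Ramsey for `H`, no proper subgraph is. -/
def MinRamsey {V W : Type} (G : SimpleGraph V) (H : SimpleGraph W) : Prop :=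
  Arrows G H ∧ ∀ G' : G.Subgraph, G' ≠ ⊤ → ¬ Arrows G'.coe H

open Classical in
/-- `s_2(H)`: the least minimum degree of a minimal 2-Ramsey graph for `H`. -/
noncomputable def s2 {W : Type} (H : SimpleGraph W) : ℕ :=
  sInf {d | ∃ (n : ℕ) (G : SimpleGraph (Fin n)), MinRamsey G H ∧ G.minDegree = d}

open Classical in
/-- `H` is 2-Ramsey-simple: `s_2(H) = 2 (δ(H) - 1) + 1`. -/
def RamseySimple {W : Type} [Finite W] (H : SimpleGraph W) : Prop :=
  s2 H = 2 * (@SimpleGraph.minDegree W H (Fintype.ofFinite W) _ - 1) + 1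

/-- `H` and `H'` are Ramsey equivalent: they have the same 2-Ramsey graphs. -/
def RamseyEquiv {W W' : Type} (H : SimpleGraph W) (H' : SimpleGraph W') : Prop :=
  ∀ (n : ℕ) (G : SimpleGraph (Fin n)), Arrows G H ↔ Arrows G H'

/-- 2-connected: at least three vertices, connected, and connected after the deletion of
any vertex. -/
def TwoConn {V : Type} (B : SimpleGraph V) : Prop :=
  3 ≤ Nat.card V ∧ B.Connected ∧ ∀ v : V, (B.induce {v}ᶜ).Connected

/-- `B` with one pendant edge added at every vertex of `Z`. -/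
def pend {V : Type} (B : SimpleGraph V) (Z : Set V) : SimpleGraph (V ⊕ Z) where
  Adj x y := match x, y with
    | .inl u, .inl v => B.Adj u v
    | .inl u, .inr z => u = z.1
    | .inr z, .inl u => u = z.1
    | .inr _, .inr _ => False
  symm := ⟨by
    rintro (u | z) (v | w) h
    · exact B.symm.symm _ _ h
    · exact h
    · exact h
    · exact h⟩
  loopless := ⟨by
    rintro (u | z) h
    · exact B.loopless.irrefl u h
    · exact h⟩

/-- The least `m` such that `H` is contained in some complete bipartite graph `K_{m,N}`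
(for a connected bipartite graph: the size of the smaller side). -/
noncomputable def smallSide {W : Type} (H : SimpleGraph W) : ℕ :=
  sInf {m | ∃ N : ℕ, H ⊑ completeBipartiteGraph (Fin m) (Fin N)}

/-- `(R, S)` is an `H`-free colouring of `G` (the two classes may overlap). -/
def Good {V W : Type} (H : SimpleGraph W) (G R S : SimpleGraph V) : Prop :=
  R ⊔ S = G ∧ H.Free R ∧ H.Free S

/-- `G` has an `H`-free 2-colouring. -/
def InC {V W : Type} (H : SimpleGraph W) (G : SimpleGraph V) : Prop :=
  ∃ R S : SimpleGraph V, Good H G R S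

/-- `v` is saturated in `G`: it is the vertex `z ∈ Z` of a copy of `B` with all the pendant edges
except the one at `z`. -/
def Sat {V K : Type} (B : SimpleGraph V) (Z : Set V) (G : SimpleGraph K) (v : K) : Prop :=
  ∃ z ∈ Z, ∃ f : Copy (pend B (Z \ {z})) G, f (Sum.inl z) = v

/-- `G` with a new vertex `none` joined to the vertices of `S`. -/
def cone {K : Type} (G : SimpleGraph K) (S : Set K) : SimpleGraph (Option K) where
  Adj x y := match x, y with
    | some a, some b => G.Adj a b
    | some a, none => a ∈ S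
    | none, some a => a ∈ S
    | none, none => False
  symm := ⟨by
    rintro (_ | a) (_ | b) h
    · exact h
    · exact h
    · exact h
    · exact G.symm.symm _ _ h⟩
  loopless := ⟨by
    rintro (_ | a) h
    · exact h
    · exact G.loopless.irrefl a h⟩

/-- Glueing `Q` (root `r`) at the vertex `k` of `G`; the vertex `inr r` is isolated. -/
def glue {K L : Type} (G : SimpleGraph K) (k : K) (Q : SimpleGraph L) (r : L) :
    SimpleGraph (K ⊕ L) where
  Adj x y := match x, y with
    | .inl a, .inl b => G.Adj a b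
    | .inl a, .inr y => a = k ∧ Q.Adj r y
    | .inr y, .inl a => a = k ∧ Q.Adj r y
    | .inr x, .inr y => x ≠ r ∧ y ≠ r ∧ Q.Adj x y
  symm := ⟨by
    rintro (a | x) (b | y) h
    · exact G.symm.symm _ _ h
    · exact h
    · exact h
    · exact ⟨h.2.1, h.1, Q.symm.symm _ _ h.2.2⟩⟩
  loopless := ⟨by
    rintro (a | x) h
    · exact G.loopless.irrefl a h
    · exact Q.loopless.irrefl x h.2.2⟩

/-- Glueing a copy of `Q` (root `r`) at every vertex `t ∈ T` of `G`; the copy at `t` is
`inr (t, ·)`, the vertices `inr (t, r)` and `inr (t, x)`, `t ∉ T`, are isolated or harmless. -/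
def mglue {K L : Type} (G : SimpleGraph K) (T : Set K) (Q : SimpleGraph L) (r : L) :
    SimpleGraph (K ⊕ K × L) where
  Adj x y := match x, y with
    | .inl a, .inl b => G.Adj a b
    | .inl a, .inr y => a ∈ T ∧ y.1 = a ∧ Q.Adj r y.2
    | .inr y, .inl a => a ∈ T ∧ y.1 = a ∧ Q.Adj r y.2
    | .inr x, .inr y => x.1 ∈ T ∧ x.1 = y.1 ∧ x.2 ≠ r ∧ y.2 ≠ r ∧ Q.Adj x.2 y.2
  symm := ⟨by
    rintro (a | x) (b | y) h
    · exact G.symm.symm _ _ h
    · exact h
    · exact h
    · exact ⟨h.2.1 ▸ h.1, h.2.1.symm, h.2.2.2.1, h.2.2.1, Q.symm.symm _ _ h.2.2.2.2⟩⟩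
  loopless := ⟨by
    rintro (a | x) h
    · exact G.loopless.irrefl a h
    · exact Q.loopless.irrefl x.2 h.2.2.2.2⟩

end Pool.Agent.RS80
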