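import Pool.Agent.Helper80_RS.Glue

/-!
# Block lemmas for many roots (MGA, MGB)
-/

open SimpleGraph

namespace Pool.Agent.RS80

variable {V K L A : Type}

theorem mglue_left (G : SimpleGraph K) (T : Set K) (Q : SimpleGraph L) (r : L) {H : SimpleGraph A}
    (f : Copy H (mglue G T Q r)) (h : ∀ a, ∃ b, f a = Sum.inl b) :
    ∃ g : Copy H G, ∀ a, f a = Sum.inl (g a) := by
  choose g hg using h
  refine ⟨⟨⟨g, fun {a b} hab => ?_⟩, fun a b hab => ?_⟩, hg⟩
  · have := f.toHom.map_rel hab
    change (mglue G T Q r).Adj (f a) (f b) at this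
    rw [hg, hg] at this
    exact this
  · apply f.injective
    change f a = f b
    change g a = g b at hab
    rw [hg, hg, hab]

theorem mglue_right (G : SimpleGraph K) (T : Set K) (Q : SimpleGraph L) (r : L)
    {H : SimpleGraph A} (f : Copy H (mglue G T Q r)) (t : K)
    (h : ∀ a, f a = Sum.inl t ∨ ∃ x, x ≠ r ∧ f a = Sum.inr (t, x)) :
    ∃ g : Copy H Q, ∀ a, (f a = Sum.inl t ∧ g a = r) ∨ (f a = Sum.inr (t, g a) ∧ g a ≠ r) := by
  have h' : ∀ a, ∃ y, (f a = Sum.inl t ∧ y = r) ∨ (f a = Sum.inr (t, y) ∧ y ≠ r) := by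
    intro a
    rcases h a with h1 | ⟨x, hx, h1⟩
    · exact ⟨r, Or.inl ⟨h1, rfl⟩⟩
    · exact ⟨x, Or.inr ⟨h1, hx⟩⟩
  choose g hg using h'
  refine ⟨⟨⟨g, fun {a b} hab => ?_⟩, fun a b hab => ?_⟩, hg⟩
  · have := f.toHom.map_rel hab
    change (mglue G T Q r).Adj (f a) (f b) at this
    rcases hg a with ⟨ha, ha'⟩ | ⟨ha, ha'⟩ <;> rcases hg b with ⟨hb, hb'⟩ | ⟨hb, hb'⟩
    · exfalso
      have : a = b := f.injective (by change f a = f b; rw [ha, hb])
      exact hab.ne this
    · rw [ha, hb] at this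
      rw [ha']
      exact this.2.2
    · rw [ha, hb] at this
      rw [hb']
      exact this.2.2.symm
    · rw [ha, hb] at this
      exact this.2.2.2.2
  · change g a = g b at hab
    apply f.injective
    change f a = f b
    rcases hg a with ⟨ha, ha'⟩ | ⟨ha, ha'⟩ <;> rcases hg b with ⟨hb, hb'⟩ | ⟨hb, hb'⟩
    · rw [ha, hb]
    · exact absurd (hab ▸ ha') hb'
    · exact absurd (hab.symm ▸ hb') ha'
    · rw [ha, hb, hab]

theorem mglue_block {B : SimpleGraph V} (hB : TwoConn B) (G : SimpleGraph K) (T : Set K)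
    (Q : SimpleGraph L) (r : L) (f : Copy B (mglue G T Q r)) :
    (∀ v, ∃ b, f v = Sum.inl b) ∨
      (∃ t ∈ T, ∀ v, f v = Sum.inl t ∨ ∃ x, x ≠ r ∧ f v = Sum.inr (t, x)) := by
  by_cases hex : ∃ v x, f v = Sum.inr x
  · right
    obtain ⟨v, x, hv⟩ := hex
    have hadj : ∀ a b, B.Adj a b → (mglue G T Q r).Adj (f a) (f b) := fun a b h =>
      f.toHom.map_rel h
    obtain ⟨hxT, hxr⟩ : x.1 ∈ T ∧ x.2 ≠ r := by
      obtain ⟨u, hu⟩ := hB.exists_adj v
      have := hadj _ _ hu
      rw [hv] at this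
      rcases hfu : f u with a | y
      · rw [hfu] at this
        obtain ⟨h1, h2, h3⟩ := this
        exact ⟨h2 ▸ h1, h3.ne'⟩
      · rw [hfu] at this
        exact ⟨this.1, this.2.2.1⟩
    obtain ⟨t, x⟩ := x
    have hstep : ∀ a b, B.Adj a b → (∃ y, y ≠ r ∧ f a = Sum.inr (t, y)) → f b ≠ Sum.inl t →
        (∃ y, y ≠ r ∧ f b = Sum.inr (t, y)) := by
      rintro a b hab ⟨y, hy, ha⟩ hb
      have := hadj _ _ hab
      rw [ha] at this
      rcases hfb : f b with c | ⟨t', y'⟩
      · rw [hfb] at this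
        exact absurd (by rw [hfb]; exact congrArg _ this.2.1.symm) hb
      · rw [hfb] at this
        obtain ⟨h1, h2, h3, h4, h5⟩ := this
        have h2' : t = t' := h2
        exact ⟨y', h4, by rw [h2']⟩
    refine ⟨t, hxT, ?_⟩
    by_cases hk : ∃ w, f w = Sum.inl t
    · obtain ⟨w, hw⟩ := hk
      have hne : ∀ u, u ≠ w → f u ≠ Sum.inl t := fun u hu he =>
        hu (f.injective (by change f u = f w; rw [he, hw]))
      have hvw : v ≠ w := by
        rintro rfl
        rw [hv] at hw
        cases hw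
      intro u
      by_cases huw : u = w
      · left; rw [huw]; exact hw
      · right
        exact hB.prop (fun u => ∃ y, y ≠ r ∧ f u = Sum.inr (t, y)) w
          (fun a b hab ha hb => hstep a b hab ha (hne b hb)) ⟨x, hxr, hv⟩ hvw u huw
    · push Not at hk
      intro u
      right
      exact prop_of_preconnected hB.2.1.preconnected (fun u => ∃ y, y ≠ r ∧ f u = Sum.inr (t, y))
        (fun a b hab ha => hstep a b hab ha (hk b)) ⟨x, hxr, hv⟩ u
  · left
    push Not at hex
    intro v
    rcases hfv : f v with a | x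
    · exact ⟨a, rfl⟩
    · exact absurd hfv (hex v x)

/-- The part of a copy of `pend B Z` whose `B` lies in the copy of `Q` at `t`. -/
theorem mglue_part {B : SimpleGraph V} {Z : Set V} (G : SimpleGraph K) (T : Set K)
    (Q : SimpleGraph L) (r : L) (f : Copy (pend B Z) (mglue G T Q r)) (t : K)
    (hR : ∀ v, f (Sum.inl v) = Sum.inl t ∨ ∃ x, x ≠ r ∧ f (Sum.inl v) = Sum.inr (t, x))
    (hQ : (pend B Z).Free Q) : Sat B Z Q r ∧ ∃ y, G.Adj t y := by
  have hadj : ∀ a b, (pend B Z).Adj a b → (mglue G T Q r).Adj (f a) (f b) := fun a b h =>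
      f.toHom.map_rel h
  have hinj : ∀ a b, f a = f b → a = b := fun a b h => f.injective h
  by_cases hleaf : ∃ z : Z, ∃ y, y ≠ t ∧ f (Sum.inr z) = Sum.inl y
  · obtain ⟨z, y, hyk, hy⟩ := hleaf
    have had := hadj (Sum.inl z.1) (Sum.inr z) rfl
    have hzk : f (Sum.inl z.1) = Sum.inl t := by
      rcases hR z.1 with h | ⟨x, hx, h⟩
      · exact h
      · rw [h, hy] at had
        exact absurd had.2.1.symm hyk
    rw [hzk, hy] at had
    refine ⟨⟨z.1, z.2, ?_⟩, ⟨y, had⟩⟩
    obtain ⟨g, hg⟩ := mglue_right G T Q r (f.comp (pendMono B (Z' := Z \ {z.1}) (Z := Z)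
      Set.sdiff_subset)) t (by
        rintro (v | w)
        · exact hR v
        · change f (Sum.inr ⟨w.1, _⟩) = Sum.inl t ∨
            ∃ x, x ≠ r ∧ f (Sum.inr ⟨w.1, _⟩) = Sum.inr (t, x)
          have had' := hadj (Sum.inl w.1) (Sum.inr ⟨w.1, w.2.1⟩) rfl
          rcases hfw : f (Sum.inr ⟨w.1, w.2.1⟩) with c | ⟨t', y'⟩
          · left
            rcases hR w.1 with h | ⟨x, hx, h⟩
            · have := hinj (Sum.inl w.1) (Sum.inl z.1) (by rw [h, hzk])
              exact absurd (Sum.inl_injective this) w.2.2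
            · rw [h, hfw] at had'
              exact congrArg _ had'.2.1.symm
          · right
            rcases hR w.1 with h | ⟨x, hx, h⟩
            · rw [h, hfw] at had'
              exact ⟨y', had'.2.2.ne', by rw [show t' = t from had'.2.1]⟩
            · rw [h, hfw] at had'
              exact ⟨y', had'.2.2.2.1, by rw [← show t = t' from had'.2.1]⟩)
    refine ⟨g, ?_⟩
    rcases hg (Sum.inl z.1) with h | h
    · exact h.2
    · exfalso
      have h3 := h.1
      change f (Sum.inl z.1) = _ at h3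
      rw [hzk] at h3
      cases h3
  · push Not at hleaf
    exfalso
    obtain ⟨g, -⟩ := mglue_right G T Q r f t (by
      rintro (v | z)
      · exact hR v
      · have had := hadj (Sum.inl z.1) (Sum.inr z) rfl
        rcases hfw : f (Sum.inr z) with c | ⟨t', y'⟩
        · left
          by_cases hck : c = t
          · rw [hck]
          · exact absurd hfw (hleaf z c hck)
        · right
          rcases hR z.1 with h | ⟨x, hx, h⟩
          · rw [h, hfw] at had
            exact ⟨y', had.2.2.ne', by rw [show t' = t from had.2.1]⟩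
          · rw [h, hfw] at had
            exact ⟨y', had.2.2.2.1, by rw [← show t = t' from had.2.1]⟩)
    exact hQ ⟨g⟩

theorem mga : MgaStmt := by
  intro V _ B Z hB K L G T Q r hG hQ hS ⟨f⟩
  rcases mglue_block hB G T Q r (f.comp (pendInl B Z)) with hL | ⟨t, ht, hR⟩
  · obtain ⟨g, -⟩ := mglue_left G T Q r (f.comp (pendInl B Z)) hL
    exact hG ⟨g⟩
  · exact hS (mglue_part G T Q r f t hR hQ).1

theorem mgb : MgbStmt := by
  intro V _ B Z hB K L G T Q r hG hQ hT ⟨f⟩
  have hadj : ∀ a b, (pend B Z).Adj a b → (mglue G T Q r).Adj (f a) (f b) := fun a b h =>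
      f.toHom.map_rel h
  rcases mglue_block hB G T Q r (f.comp (pendInl B Z)) with hL | ⟨t, ht, hR⟩
  · have hL' : ∀ v, ∃ b, f (Sum.inl v) = Sum.inl b := hL
    obtain ⟨g, -⟩ := mglue_left G T Q r f (by
      rintro (v | z)
      · exact hL' v
      · rcases hfw : f (Sum.inr z) with c | y'
        · exact ⟨c, rfl⟩
        · exfalso
          have had := hadj (Sum.inl z.1) (Sum.inr z) rfl
          obtain ⟨b, hb⟩ := hL' z.1
          rw [hb, hfw] at had
          obtain ⟨u, hu⟩ := hB.exists_adj z.1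
          have had' := hadj (Sum.inl z.1) (Sum.inl u) hu
          obtain ⟨c, hc⟩ := hL' u
          rw [hb, hc] at had'
          exact hT b had.1 c had')
    exact hG ⟨g⟩
  · obtain ⟨-, y, hy⟩ := mglue_part G T Q r f t hR hQ
    exact hT t ht y hy

end Pool.Agent.RS80
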