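import Pool.Agent.Helper80_RS.Asm
import Pool.Agent.Helper25_RS.Pon
import Pool.Agent.Helper33_RS.Ske
import Pool.Agent.Helper60_RS.Ktt
import Pool.Agent.Helper60_RS.Stw
import Pool.Agent.Helper39_RS.Mix
import Pool.Agent.Helper39_RS.Cnv

/-!
# MP_ff6f12_co: 2-Ramsey-simplicity and Ramsey equivalence

`B` 2-connected and bipartite, `Z` a non-empty set of its vertices, `H = pend B Z` is `B` with one
pendant edge at every vertex of `Z`. Then `H` is 2-Ramsey-simple iff `B` and `H` are not Ramsey
equivalent.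
-/

open SimpleGraph Pool.Agent.RS80

namespace Pool.Agent.RS80.OldEquiv

theorem result : ∀ (V : Type) [Finite V] (B : SimpleGraph V) (Z : Set V), TwoConn B →
    B.Colorable 2 → Z.Nonempty →
    (RamseySimple (pend B Z) ↔ ¬ RamseyEquiv B (pend B Z)) := by
  have hmix : MixStmt := H39.mix H60.hub H60.ktt
  have hpon : PonStmt := pon hmix glu
  have hasm : AsmStmt := asm hpon H33.ske
  intro V _ B Z hB hc hZ
  exact ⟨H39.cnv V B Z hB hZ, fun h => H60.stw V B Z hB hZ (hasm V B Z hB hc hZ h)⟩

end Pool.Agent.RS80.OldEquiv
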