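import Pool.Agent.Helper80_RS.Asm
import Pool.Agent.Helper25_RS.Pon
import Pool.Agent.Helper33_RS.Ske
import Pool.Agent.Helper60_RS.Ktt
import Pool.Agent.Helper60_RS.Stw
import Pool.Agent.Helper39_RS.Mix
import Pool.Agent.Helper21_RS.Cyc

/-!
# MP_ff6f12_co: even cycles with pendant edges are 2-Ramsey-simple
-/

open SimpleGraph Pool.Agent.RS80

namespace Pool.Agent.RS80.OldEvenCycles

theorem result : ∀ k : ℕ, 3 ≤ k → ∀ Z : Set (Fin (2 * k)), Z.Nonempty →
    RamseySimple (pend (cycleGraph (2 * k)) Z) := by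
  have hmix : MixStmt := H39.mix H60.hub H60.ktt
  have hpon : PonStmt := pon hmix glu
  have hasm : AsmStmt := asm hpon H33.ske
  intro k hk Z hZ
  obtain ⟨hB, hc, h⟩ := H21.cyc k hk
  exact H60.stw _ _ Z hB hZ (hasm _ _ Z hB hc hZ (h Z hZ))

end Pool.Agent.RS80.OldEvenCycles
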