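import Pool.Agent.Helper80_RS.Defs

/-!
# MP_ff6f12_co: statements of the modules (squad RS)

`H = pend B Z` always. Every module proves its statement, the statements in brackets are
hypotheses.
-/

open SimpleGraph

namespace Pool.Agent.RS80

/-- HUB: some `K_{m,N}` (`m = 2a-2`) has an `H`-free colouring, and every `H`-free colouring of it
has a vertex of red degree `≥ d` and a vertex of blue degree `≥ d`. -/
def HubStmt : Prop :=
  ∀ (V : Type) [Finite V] (B : SimpleGraph V) (Z : Set V), TwoConn B → B.Colorable 2 →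
    ∀ d : ℕ, ∃ m N : ℕ, InC (pend B Z) (completeBipartiteGraph (Fin m) (Fin N)) ∧
      ∀ R S, Good (pend B Z) (completeBipartiteGraph (Fin m) (Fin N)) R S →
        (∃ x, d ≤ (R.neighborSet x).ncard) ∧ (∃ y, d ≤ (S.neighborSet y).ncard)

/-- KTT: graphs with an `H`-free colouring contain no `K_{t,t}` for some `t`. -/
def KttStmt : Prop :=
  ∀ (V : Type) [Finite V] (B : SimpleGraph V) (Z : Set V), TwoConn B → B.Colorable 2 →
    ∃ t : ℕ, ∀ (K : Type) [Finite K] (G : SimpleGraph K), InC (pend B Z) G →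
      (completeBipartiteGraph (Fin t) (Fin t)).Free G

/-- MIX [HubStmt, KttStmt]: mixed gadget. -/
def MixStmt : Prop :=
  ∀ (V : Type) [Finite V] (B : SimpleGraph V) (Z : Set V), TwoConn B → B.Colorable 2 →
    Z.Nonempty → ∃ (L : Type) (_ : Finite L) (M : SimpleGraph L) (r : L), InC (pend B Z) M ∧
      ∀ R S, Good (pend B Z) M R S → (∃ x, R.Adj r x) ∧ (∃ y, S.Adj r y)

/-- GLU: block lemma for one root. -/
def GluStmt : Prop :=
  ∀ (V : Type) [Finite V] (B : SimpleGraph V) (Z : Set V), TwoConn B →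
    ∀ (K L : Type) (G : SimpleGraph K) (k : K) (Q : SimpleGraph L) (r : L),
      (pend B Z).Free G → (pend B Z).Free Q →
      ¬ (Sat B Z G k ∧ ∃ x, Q.Adj r x) → ¬ (Sat B Z Q r ∧ ∃ x, G.Adj k x) →
      (pend B Z).Free (glue G k Q r)

/-- MGA: block lemma for many roots, first version. -/
def MgaStmt : Prop :=
  ∀ (V : Type) [Finite V] (B : SimpleGraph V) (Z : Set V), TwoConn B →
    ∀ (K L : Type) (G : SimpleGraph K) (T : Set K) (Q : SimpleGraph L) (r : L),
      B.Free G → (pend B Z).Free Q → ¬ Sat B Z Q r →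
      (pend B Z).Free (mglue G T Q r)

/-- MGB: block lemma for many roots, second version. -/
def MgbStmt : Prop :=
  ∀ (V : Type) [Finite V] (B : SimpleGraph V) (Z : Set V), TwoConn B →
    ∀ (K L : Type) (G : SimpleGraph K) (T : Set K) (Q : SimpleGraph L) (r : L),
      (pend B Z).Free G → (pend B Z).Free Q → (∀ t ∈ T, ∀ x, ¬ G.Adj t x) →
      (pend B Z).Free (mglue G T Q r)

/-- PON [MixStmt, GluStmt]: a root which is saturated in some colour in every `H`-free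
colouring. -/
def PonStmt : Prop :=
  ∀ (V : Type) [Finite V] (B : SimpleGraph V) (Z : Set V), TwoConn B → B.Colorable 2 →
    Z.Nonempty → ¬ RamseyEquiv B (pend B Z) →
    ∃ (L : Type) (_ : Finite L) (Q : SimpleGraph L) (t : L), InC (pend B Z) Q ∧
      ∀ R S, Good (pend B Z) Q R S → Sat B Z R t ∨ Sat B Z S t

/-- SKE: the skeleton. -/
def SkeStmt : Prop :=
  ∀ (V : Type) [Finite V] (B : SimpleGraph V) (Z : Set V), TwoConn B →
    ∀ (c : B.Coloring Bool) (z : V), z ∈ Z →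
    ∃ (K : Type) (_ : Finite K) (D : SimpleGraph K) (P : Set K),
      B.Free D ∧
      (∀ p ∈ P, ∀ q ∈ P, ¬ D.Adj p q) ∧
      P.ncard + 2 = Nat.card (V ⊕ Z) ∧
      (∃ t, t ∉ P) ∧
      (∀ t ∉ P, ∀ t' ∉ P, Relation.ReflTransGen (fun a b => a ∉ P ∧ b ∉ P ∧ D.Adj a b) t t') ∧
      (∀ p ∈ P, ∀ q ∈ P, p ≠ q → pend B Z ⊑ D ⊔ edge p q) ∧
      (∀ S ⊆ P, S.ncard = {v | c v = c z}.ncard →
        pend B Z ⊑ cone D S ∨ Sat B Z (cone D S) none)

/-- ASM [PonStmt, SkeStmt, GluStmt, MgaStmt, MgbStmt]: a doubly saturated vertex. -/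
def AsmStmt : Prop :=
  ∀ (V : Type) [Finite V] (B : SimpleGraph V) (Z : Set V), TwoConn B → B.Colorable 2 →
    Z.Nonempty → ¬ RamseyEquiv B (pend B Z) →
    ∃ (K : Type) (_ : Finite K) (G : SimpleGraph K) (v : K),
      InC (pend B Z) G ∧ ¬ InC (pend B Z) (cone G {v})

/-- STW: from a doubly saturated vertex to `s_2(H) = 1`. -/
def StwStmt : Prop :=
  ∀ (V : Type) [Finite V] (B : SimpleGraph V) (Z : Set V), TwoConn B → Z.Nonempty →
    (∃ (K : Type) (_ : Finite K) (G : SimpleGraph K) (v : K),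
      InC (pend B Z) G ∧ ¬ InC (pend B Z) (cone G {v})) →
    RamseySimple (pend B Z)

/-- CNV: the converse. -/
def CnvStmt : Prop :=
  ∀ (V : Type) [Finite V] (B : SimpleGraph V) (Z : Set V), TwoConn B → Z.Nonempty →
    RamseySimple (pend B Z) → ¬ RamseyEquiv B (pend B Z)

/-- KNN: complete graphs. -/
def KnnStmt : Prop :=
  ∀ (V : Type) [Finite V] (B : SimpleGraph V) (Z : Set V), TwoConn B → B.Colorable 2 →
    Z.Nonempty →
    Arrows (⊤ : SimpleGraph (Fin (Nat.card (V ⊕ Z) + smallSide (pend B Z) - 2))) B →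
    ¬ RamseyEquiv B (pend B Z)

/-- CYC: even cycles. -/
def CycStmt : Prop :=
  ∀ k : ℕ, 3 ≤ k → TwoConn (cycleGraph (2 * k)) ∧ (cycleGraph (2 * k)).Colorable 2 ∧
    ∀ Z : Set (Fin (2 * k)), Z.Nonempty →
      ¬ RamseyEquiv (cycleGraph (2 * k)) (pend (cycleGraph (2 * k)) Z)

/-- The final theorem. -/
def FinalStmt : Prop :=
  (∀ (V : Type) [Finite V] (B : SimpleGraph V) (Z : Set V), TwoConn B → B.Colorable 2 →
    Z.Nonempty → (RamseySimple (pend B Z) ↔ ¬ RamseyEquiv B (pend B Z))) ∧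
  (∀ (V : Type) [Finite V] (B : SimpleGraph V) (Z : Set V), TwoConn B → B.Colorable 2 →
    Z.Nonempty →
    Arrows (⊤ : SimpleGraph (Fin (Nat.card (V ⊕ Z) + smallSide (pend B Z) - 2))) B →
    RamseySimple (pend B Z)) ∧
  (∀ k : ℕ, 3 ≤ k → ∀ Z : Set (Fin (2 * k)), Z.Nonempty →
    RamseySimple (pend (cycleGraph (2 * k)) Z))

theorem final (h1 : AsmStmt) (h2 : StwStmt) (h3 : CnvStmt) (h4 : KnnStmt) (h5 : CycStmt) :
    FinalStmt := by
  have hmain : ∀ (V : Type) [Finite V] (B : SimpleGraph V) (Z : Set V), TwoConn B →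
      B.Colorable 2 → Z.Nonempty → (RamseySimple (pend B Z) ↔ ¬ RamseyEquiv B (pend B Z)) :=
    fun V _ B Z hB hc hZ => ⟨h3 V B Z hB hZ, fun h => h2 V B Z hB hZ (h1 V B Z hB hc hZ h)⟩
  refine ⟨fun V _ B Z hB hc hZ => hmain V B Z hB hc hZ, fun V _ B Z hB hc hZ h =>
    (hmain V B Z hB hc hZ).2 (h4 V B Z hB hc hZ h), fun k hk Z hZ => ?_⟩
  obtain ⟨hB, hc, h⟩ := h5 k hk
  exact (hmain _ _ Z hB hc hZ).2 (h Z hZ)

end Pool.Agent.RS80
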